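import Pool.Agent.Helper19.HN.St

/-! # HN, module AR: an atom is an atom at almost all its reflection points -/

set_option autoImplicit false

namespace Pool.Agent.Helper33.HN.AR

open Ordinal Cardinal ZFSet Order Pool.Agent.Helper73.HODC Pool.Agent.Helper73.HM
open Pool.Agent.Helper73.HE Pool.Agent.Helper73.HU Pool.Agent.Helper19.HN

/-- splitting is definable -/
theorem dp_spl {A : Set Ordinal.{0}} (hA : DPs A) (i j : ℕ) :
    DP (fun v => Spl (v j).rank A (v i)) := by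
  refine DP.and ?_ ?_
  · exact DP.statV (Q := fun a v => a ∈ A ∧ a ∈ st (v i)) ((DPs.at hA 0).and (DP.st 0 (i + 1))) j
  · exact DP.statV (Q := fun a v => a ∈ A ∧ a ∉ st (v i))
      ((DPs.at hA 0).and (DP.st 0 (i + 1)).not) j

/-- the reflection points at which the set is not an atom -/
def X0 (κ : Cardinal.{0}) (A : Set Ordinal.{0}) : Set Ordinal.{0} :=
  {ρ | ℵ₀ < ρ.cof ∧ ρ.cof < κ ∧ Stat A ρ ∧ ¬ Atom ρ A}

theorem dps_X0 (κ : Cardinal.{0}) {A : Set Ordinal.{0}} (hA : DPs A) : DPs (X0 κ A) := by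
  have h1 : DP (fun v => ℵ₀ < (v 0).rank.cof) :=
    (Inp.cf (Order.succ ℵ₀) 0).not.congr fun v => by rw [Order.lt_succ_iff, not_le]
  have h2 : DP (fun v => (v 0).rank.cof < κ) := Inp.cf κ 0
  have h3 : DP (fun v => Stat A (v 0).rank) :=
    DP.statV (Q := fun a _ => a ∈ A) (DPs.at hA 0) 0
  have h4 : DP (fun v => ∀ B, B ∈ hodPow (v 0).rank → ¬ Spl (v 0).rank A B) :=
    DP.all (Q := fun B v => B ∈ hodPow (v 0).rank → ¬ Spl (v 0).rank A B)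
      ((dp_hodPow 0 1).imp (dp_spl hA 0 1).not)
  have h5 : DP (fun v => Atom (v 0).rank A) := by
    refine (h3.and h4).congr fun v => ?_
    constructor
    · intro h
      exact ⟨h.1, fun B hB => h.2 B (mem_hodPow.1 hB).2 (mem_hodPow.1 hB).1⟩
    · intro h
      exact ⟨h.1, fun B hB hB' => h.2 B (mem_hodPow.2 ⟨hB', hB⟩)⟩
  exact h1.and (h2.and (h3.and h5.not))

/-- the relation given by the least splitting sets -/
def R (c : Ordinal.{0}) (A : Set Ordinal.{0}) (ρ d : Ordinal.{0}) : Prop :=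
  ∃ B, LeastOD c (Spl ρ A) B ∧ d ∈ st B

theorem dp_R (c : Ordinal.{0}) {A : Set Ordinal.{0}} (hA : DPs A) :
    DP (fun v => R c A (v 0).rank (v 1).rank) := by
  refine DP.ex (Q := fun B v => LeastOD c (Spl (v 0).rank A) B ∧ (v 1).rank ∈ st B) ?_
  refine DP.and ?_ (DP.st 2 0)
  exact Inp.ld c (fun x v => Spl (v 1).rank A x) (dp_spl hA 0 2) 0

theorem exists_least {κ : Cardinal.{0}} {c ρ : Ordinal.{0}} {A : Set Ordinal.{0}}
    (h : ρ ∈ X0 κ A) (hρ : ρ < c) : ∃ B, LeastOD c (Spl ρ A) B := by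
  obtain ⟨-, -, h3, h4⟩ := h
  have h5 : ∃ B, OD B ∧ B ⊆ ρ.toZFSet ∧ Spl ρ A B := by
    by_contra hcon
    push Not at hcon
    exact h4 ⟨h3, hcon⟩
  obtain ⟨B, hB1, hB2, hB3⟩ := h5
  refine Inp.le.2 c (Spl ρ A) ⟨B, hB1, fun z hz => ?_, hB3⟩
  obtain ⟨b, hb, rfl⟩ := mem_toZFSet_iff.1 (hB2 hz)
  exact mem_toZFSet_iff.2 ⟨b, hb.trans hρ, rfl⟩

/-- the coherent set splits `A` at the reflection points -/
theorem spl_at {κ : Cardinal.{0}} {c ρ : Ordinal.{0}} {A : Set Ordinal.{0}} {X : ZFSet.{0}}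
    (h : ρ ∈ X0 κ A) (hρ : ρ < c) (hX : ∀ d < ρ, R c A ρ d ↔ d ∈ st X) : Spl ρ A X := by
  obtain ⟨B, hB⟩ := exists_least h hρ
  refine ⟨hB.1.2.2.1.mono fun a ha haρ => ⟨ha.1, (hX a haρ).1 ⟨B, hB, ha.2⟩⟩,
    hB.1.2.2.2.mono fun a ha haρ => ⟨ha.1, fun ha' => ?_⟩⟩
  obtain ⟨B', hB', hd⟩ := (hX a haρ).2 ha'
  rw [Inp.le.1 c _ B' B hB' hB] at hd
  exact ha.2 hd

/-- module AR -/
theorem ar (h : StCOH) : StAR := by
  intro κ θ c A hAt hc hθ hA hX0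
  have hτ : ℵ₀ < c.ord.cof := hA.cof
  obtain ⟨A2, hA2, hsub, -⟩ := hAt c.ord (X0 κ A) (X0 κ A) (by rw [hc.cof_ord]; exact hθ)
    (dps_X0 κ hA.dps) hX0 (fun a ha => ha) (fun a ha => ha.2.1)
  obtain ⟨X, hX, hX'⟩ := h c A2 (R c.ord A) hc hA2 (dp_R c.ord hA.dps)
  have key : ∀ C, Club C c.ord → ∃ ρ, ρ < c.ord ∧ Club C ρ ∧ Spl ρ A X := by
    intro C hC
    obtain ⟨ρ, hρ, hρc, h1, h2⟩ := hA2.exists (hX'.and hτ (AE_of_club (club_lim hτ hC)))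
    exact ⟨ρ, hρc, club_at hC hρc h2.2, spl_at (hsub ρ hρ) hρc h1⟩
  refine hA.atom.2 X (mem_hodPow.1 hX).2 (mem_hodPow.1 hX).1 ⟨fun C hC => ?_, fun C hC => ?_⟩
  · obtain ⟨ρ, hρc, hCρ, h1, -⟩ := key C hC
    obtain ⟨a, ha, haC, haρ⟩ := h1 C hCρ
    exact ⟨a, ha, haC, haρ.trans hρc⟩
  · obtain ⟨ρ, hρc, hCρ, -, h1⟩ := key C hC
    obtain ⟨a, ha, haC, haρ⟩ := h1 C hCρ
    exact ⟨a, ha, haC, haρ.trans hρc⟩

end Pool.Agent.Helper33.HN.AR
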